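import Mathlib

set_option autoImplicit false

namespace Pool.Agent.Results.MP_9b412f_an.Infinite

open Matrix Set

/-- the homogeneous form `(x,z)ᵀ Q (x,z)` of the quadratic `xᵀAx + 2bᵀx + c`; the quadratic itself is `z = 1` -/
def hom {n : ℕ} (A : Matrix (Fin n) (Fin n) ℝ) (b : Fin n → ℝ) (c : ℝ) (x : Fin n → ℝ) (z : ℝ) : ℝ :=
  x ⬝ᵥ A *ᵥ x + 2 * (b ⬝ᵥ x) * z + c * z ^ 2

def F (x : Fin 7 → ℝ) (z : ℝ) : Fin 3 → ℝ :=
  ![x 0 ^ 2 + x 1 ^ 2 - x 4 * z, x 2 ^ 2 + x 3 ^ 2 - x 5 * z, 2 * (x 0 * x 2 + x 1 * x 3) - x 6 * z]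

def P : Set (Fin 3 → ℝ) := {w | ∀ s t : ℝ, 0 ≤ w 0 * s ^ 2 + w 1 * t ^ 2 + w 2 * (s * t)}

lemma gram {w : Fin 3 → ℝ} (h : w ∈ P) : ∃ p q r : ℝ, p ^ 2 = w 0 ∧ q ^ 2 + r ^ 2 = w 1 ∧ 2 * (p * q) = w 2 := by
  have a : 0 ≤ w 0 := by simpa using h 1 0
  rcases a.eq_or_lt with a | a
  · have b : 0 ≤ w 1 := by simpa using h 0 1
    refine ⟨0, 0, √(w 1), by simpa, by simp [b], ?_⟩
    by_contra c
    have := h (-(w 1 + 1) / w 2) 1
    rw [← a, mul_one, mul_div_cancel₀ _ (by simpa [eq_comm] using c)] at this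
    linarith
  · have s := Real.sqrt_pos.2 a
    have e : (w 2 / (2 * √(w 0))) ^ 2 = w 2 ^ 2 / (4 * w 0) := by rw [div_pow, mul_pow, Real.sq_sqrt a.le]; norm_num
    refine ⟨√(w 0), w 2 / (2 * √(w 0)), √(w 1 - w 2 ^ 2 / (4 * w 0)), Real.sq_sqrt a.le, ?_, by field_simp⟩
    rw [e, Real.sq_sqrt, add_sub_cancel]
    refine (h (-w 2 / (2 * w 0)) 1).trans_eq ?_
    field_simp; ring

lemma mid {T : Set ℝ} (cT : Convex ℝ T) {p q s t : ℝ} (hp : p ∈ T) (hq : q ∈ closure T) (s0 : 0 < s) (t0 : 0 ≤ t)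
    (st : s + t = 1) : s * p + t * q ∈ T := by
  obtain rfl : t = 1 - s := by linarith
  rcases lt_trichotomy p q with c | rfl | c
  · obtain ⟨r, hr, m⟩ := mem_closure_iff.1 hq (Ioi (s * p + (1 - s) * q)) isOpen_Ioi (mem_Ioi.2 (by nlinarith))
    exact cT.ordConnected.out hp m ⟨by nlinarith, le_of_lt hr⟩
  · rwa [← add_mul, st, one_mul]
  · obtain ⟨r, hr, m⟩ := mem_closure_iff.1 hq (Iio (s * p + (1 - s) * q)) isOpen_Iio (mem_Iio.2 (by nlinarith))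
    exact cT.ordConnected.out m hp ⟨le_of_lt hr, by nlinarith⟩

lemma hhc (a : Fin 7 → ℝ) (d : ℝ) : Convex ℝ {w | ∃ x z, a ⬝ᵥ x + d * z = 0 ∧ w = F x z} := by
  let R : (Fin 7 → ℝ) × ℝ → ℝ := fun y => y.2 * (a 0 * y.1 0 + a 1 * y.1 1 + a 2 * y.1 2 + a 3 * y.1 3) + d * y.2 ^ 2 +
    (a 4 * F y.1 0 0 + a 5 * F y.1 0 1 + a 6 * F y.1 0 2)
  have cR : Continuous R := by simp only [R, F, cons_val]; fun_prop
  let T := R '' (univ ×ˢ Ioi 0)
  have cT : Convex ℝ T := (((convex_univ.prod (convex_Ioi 0)).isPreconnected).image R cR.continuousOn).convex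
  let l : (Fin 3 → ℝ) → ℝ := fun w => a 4 * w 0 + a 5 * w 1 + a 6 * w 2
  have A : ∀ w, l w ∈ T → ∃ x z, a ⬝ᵥ x + d * z = 0 ∧ w = F x z := fun w ⟨⟨x, z⟩, ⟨_, (z0 : 0 < z)⟩, e⟩ => by
    refine ⟨![x 0, x 1, x 2, x 3, (F x 0 0 - w 0) / z, (F x 0 1 - w 1) / z, (F x 0 2 - w 2) / z], z, ?_, ?_⟩
    · simp only [dotProduct, Fin.sum_univ_seven, cons_val, R, l] at e ⊢
      field_simp
      linear_combination e
    · ext i; fin_cases i <;> simp [F] <;> field_simp <;> ring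
  have B : ∀ x z, a ⬝ᵥ x + d * z = 0 → l (F x z) ∈ T ∨ (F x z ∈ P ∧ l (F x z) ∈ closure T) := fun x z e => by
    simp only [dotProduct, Fin.sum_univ_seven] at e
    rcases lt_trichotomy z 0 with c | rfl | c
    · exact .inl ⟨(-x, -z), ⟨trivial, neg_pos.2 c⟩, by simp [R, l, F]; linear_combination z * e⟩
    · refine .inr ⟨fun s t => ?_, ?_⟩
      · simp only [F, cons_val]
        nlinarith [sq_nonneg (x 0 * s + x 2 * t), sq_nonneg (x 1 * s + x 3 * t)]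
      · have := map_mem_closure (s := univ ×ˢ Ioi 0) (x := (x, 0)) cR (by simp [closure_prod_eq])
          (mapsTo_image _ _)
        simpa [R] using this
    · exact .inl ⟨(x, z), ⟨trivial, c⟩, by simp [R, l, F]; linear_combination z * e⟩
  refine convex_iff_forall_pos.2 ?_
  rintro _ ⟨x, z, e, rfl⟩ _ ⟨x', z', e', rfl⟩ s t s0 t0 st
  have L : l (s • F x z + t • F x' z') = s * l (F x z) + t * l (F x' z') := by simp [l]; ring
  rcases B x z e with u | ⟨u, u'⟩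
  · exact A _ (L ▸ mid cT u ((B x' z' e').elim (subset_closure ·) And.right) s0 t0.le st)
  rcases B x' z' e' with v | ⟨v, -⟩
  · exact A _ (by rw [L, add_comm]; exact mid cT v u' t0 s0.le (by linarith))
  obtain ⟨p, q, r, e0, e1, e2⟩ := gram (w := s • F x z + t • F x' z') fun i j => by
    have := add_nonneg (mul_nonneg s0.le (u i j)) (mul_nonneg t0.le (v i j))
    simp only [Pi.add_apply, Pi.smul_apply, smul_eq_mul]
    linarith
  generalize s • F x z + t • F x' z' = w at *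
  by_cases c : a 4 = 0 ∧ a 5 = 0 ∧ a 6 = 0
  · by_cases c' : a 0 = 0 ∧ a 1 = 0 ∧ a 2 = 0 ∧ a 3 = 0
    · exact ⟨![p, 0, q, r, 0, 0, 0], 0, by simp [dotProduct, Fin.sum_univ_seven, c, c'],
        by ext i; fin_cases i <;> simp [F, *]⟩
    · have : a 0 ^ 2 + a 1 ^ 2 + a 2 ^ 2 + a 3 ^ 2 ≠ 0 := fun z => c' (by
        refine ⟨?_, ?_, ?_, ?_⟩ <;> nlinarith only [z, sq_nonneg (a 0), sq_nonneg (a 1), sq_nonneg (a 2), sq_nonneg (a 3)])
      refine A _ ⟨((-d / (a 0 ^ 2 + a 1 ^ 2 + a 2 ^ 2 + a 3 ^ 2)) • a, 1), ⟨trivial, mem_Ioi.2 one_pos⟩, ?_⟩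
      simp only [R, l, c, Pi.smul_apply, smul_eq_mul]
      field_simp; ring
  · have : a 4 ^ 2 + a 5 ^ 2 + a 6 ^ 2 ≠ 0 := fun z => c (by
      refine ⟨?_, ?_, ?_⟩ <;> nlinarith only [z, sq_nonneg (a 4), sq_nonneg (a 5), sq_nonneg (a 6)])
    let k := -(a 0 * p + a 2 * q + a 3 * r) / (a 4 ^ 2 + a 5 ^ 2 + a 6 ^ 2)
    refine ⟨![p, 0, q, r, k * a 4, k * a 5, k * a 6], 0, ?_, by ext i; fin_cases i <;> simp [F, *]⟩
    simp only [dotProduct, Fin.sum_univ_seven, cons_val, k]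
    field_simp; ring

theorem result : ∃ (n m : ℕ) (A : Fin m → Matrix (Fin n) (Fin n) ℝ) (b : Fin m → Fin n → ℝ) (c : Fin m → ℝ)
    (S : Set (Fin n → ℝ)), (∀ i, (A i).IsSymm) ∧ S = {x | ∀ i, hom (A i) (b i) (c i) x 1 < 0} ∧
    (∀ (a : Fin n → ℝ) (d : ℝ), a ≠ 0 ∨ d ≠ 0 →
      Convex ℝ {w : Fin m → ℝ | ∃ x z, a ⬝ᵥ x + d * z = 0 ∧ w = fun i => hom (A i) (b i) (c i) x z}) ∧
    S.Nonempty ∧ convexHull ℝ S ≠ univ ∧
    ∀ (r : ℕ) (l : Fin r → Fin m → ℝ), (∀ j, 0 ≤ l j ∧ l j ≠ 0) →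
      convexHull ℝ S ≠ ⋂ j, {x | ∑ i, l j i * hom (A i) (b i) (c i) x 1 < 0} := by
  let A : Fin 3 → Matrix (Fin 7) (Fin 7) ℝ := ![diagonal ![1, 1, 0, 0, 0, 0, 0], diagonal ![0, 0, 1, 1, 0, 0, 0],
    single 0 2 1 + single 2 0 1 + single 1 3 1 + single 3 1 1]
  let b : Fin 3 → Fin 7 → ℝ := ![Pi.single 4 (-1 / 2), Pi.single 5 (-1 / 2), Pi.single 6 (-1 / 2)]
  have e : ∀ x z i, hom (A i) (b i) 0 x z = F x z i := fun x z i => by
    fin_cases i <;> simp [hom, A, b, F, mulVec_diagonal, dotProduct, Fin.sum_univ_seven, add_mulVec, single_mulVec] <;>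
      ring
  have sub : ∀ a : ℝ, 0 < a → ∀ x ∈ convexHull ℝ {x | ∀ i, F x 1 i < 0}, 0 < x 4 + a ^ 2 * x 5 + a * x 6 :=
    fun a ha => convexHull_min (t := {x : Fin 7 → ℝ | 0 < x 4 + a ^ 2 * x 5 + a * x 6}) (fun x hx => by
      have h0 := hx 0
      have h1 := mul_neg_of_pos_of_neg (pow_pos ha 2) (hx 1)
      have h2 := mul_neg_of_pos_of_neg ha (hx 2)
      simp only [F, cons_val, mem_ofPred_eq] at h0 h1 h2 ⊢
      nlinarith [sq_nonneg (x 0 + a * x 2), sq_nonneg (x 1 + a * x 3)])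
      (convex_halfSpace_gt ⟨fun x y => by simp; ring, fun c x => by simp; ring⟩ 0)
  refine ⟨7, 3, A, b, 0, _, fun i => ?_, rfl, fun a d _ => ?_, ⟨![0, 0, 0, 0, 1, 1, 1], fun i => ?_⟩, fun c => ?_,
    fun r l hl c => ?_⟩
  · fin_cases i
    exacts [isSymm_diagonal _, isSymm_diagonal _, by
      simp only [A, IsSymm, cons_val, Fin.reduceFinMk, transpose_add, transpose_single]; abel]
  · simpa only [Pi.zero_apply, e] using hhc a d
  · rw [Pi.zero_apply, e]; fin_cases i <;> simp [F]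
  · simp only [Pi.zero_apply, e] at c
    simpa using sub 1 one_pos 0 (c ▸ trivial)
  simp only [Pi.zero_apply, e] at c
  have nn : ∀ j a, 0 ≤ l j 0 * a ^ 2 + l j 1 - 2 * a * l j 2 := fun j a => le_of_forall_pos_lt_add fun ε h => by
    have n0 : 0 ≤ l j 0 := (hl j).1 0
    have n1 : 0 ≤ l j 1 := (hl j).1 1
    have n2 : 0 ≤ l j 2 := (hl j).1 2
    obtain ⟨δ, d0, hd⟩ : ∃ δ : ℝ, 0 < δ ∧ δ * (l j 0 + l j 1 + l j 2 + 1) = ε :=
      ⟨ε / (l j 0 + l j 1 + l j 2 + 1), by positivity, by field_simp⟩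
    have m : ∀ σ : ℝ, σ ^ 2 = 1 → ![σ * a, 0, -σ, 0, a ^ 2 + δ, 1 + δ, -2 * a + δ] ∈
        convexHull ℝ {x | ∀ i, F x 1 i < 0} := fun σ s => subset_convexHull _ _ fun i => by
      fin_cases i <;> simp [F, mul_pow, s, d0]
      linarith [show σ * a * σ = a by linear_combination a * s]
    have := convex_convexHull _ _ (m 1 (by simp)) (m (-1) (by simp)) (a := 1 / 2) (b := 1 / 2) (by simp) (by simp)
      (by norm_num)
    rw [c, mem_iInter] at this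
    have := this j
    simp [F, Fin.sum_univ_three] at this
    nlinarith
  have fin : {a : ℝ | ∃ j, l j 0 * a ^ 2 + l j 1 - 2 * a * l j 2 = 0}.Finite := by
    rw [ofPred_exists]
    refine finite_iUnion fun j => Set.Subsingleton.finite fun a ha a' ha' => ?_
    by_contra d
    have h1 := nn j ((a + a') / 2)
    have h2 : 0 < (a - a') ^ 2 := by have := sub_ne_zero.2 d; positivity
    have n0 : 0 ≤ l j 0 := (hl j).1 0
    simp only [mem_ofPred_eq] at ha ha'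
    have z0 : l j 0 = 0 := by nlinarith
    have z2 : l j 2 = 0 := mul_left_cancel₀ (sub_ne_zero.2 d) (by rw [z0] at ha ha'; linarith)
    refine (hl j).2 (funext fun i => ?_)
    fin_cases i <;> simp_all
  obtain ⟨a, ha, na⟩ := (Ioi_infinite (0 : ℝ)).exists_notMem_finite fin
  have := sub a ha ![0, 0, 0, 0, a ^ 2, 1, -2 * a] (c ▸ mem_iInter.2 fun j => by
    have := (nn j a).lt_of_ne' fun z => na ⟨j, z⟩
    simp [F, Fin.sum_univ_three]
    linarith)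
  simp at this
  linarith

end Pool.Agent.Results.MP_9b412f_an.Infinite
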